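import Mathlib

/-!
Bracket polynomials and the Pluecker relations.
-/

namespace Pool.Agent.Helper49.Plu

open MvPolynomial

/-- The bracket `[l]` of an arbitrary map `l : Fin r → Fin m`, as a polynomial in the variables
`X_J`, `J` an increasing `r`-tuple: it is `0` if `l` is not injective, and `sign(π) X_J` if
`l = J ∘ π` with `J` increasing and `π` a permutation. -/
noncomputable def bra {r m : ℕ} (l : Fin r → Fin m) : MvPolynomial (Fin r ↪o Fin m) ℂ :=
  ∑ J : Fin r ↪o Fin m,
    C (Matrix.det (Matrix.of fun i j : Fin r => if l i = J j then (1 : ℂ) else 0)) * X J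

/-- The concatenation of an `s`-tuple and a `t`-tuple, `s + t = r`. -/
def cat {α : Type*} {s t r : ℕ} (h : s + t = r) (a : Fin s → α) (b : Fin t → α) : Fin r → α :=
  fun i => Fin.append a b (Fin.cast h.symm i)

/-- The Pluecker (van der Waerden) relation attached to tuples `a` (of length `s`), `b` (of length
`u`) and `c` (of length `r + 1 = (u+1) + (s+1)`), with `s + u + 1 = r`: the alternating sum over
all permutations of the entries of `c` of the products `[a, c'] [c'', b]`, where `c'` consists of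
the first `u+1` and `c''` of the last `s+1` entries of the permuted `c`. -/
noncomputable def rel {s u r m : ℕ} (h₁ : s + (u + 1) = r) (h₂ : (s + 1) + u = r)
    (a : Fin s → Fin m) (b : Fin u → Fin m) (c : Fin (u + 1) ⊕ Fin (s + 1) → Fin m) :
    MvPolynomial (Fin r ↪o Fin m) ℂ :=
  ∑ σ : Equiv.Perm (Fin (u + 1) ⊕ Fin (s + 1)), ((Equiv.Perm.sign σ : ℤˣ) : ℤ) •
    (bra (cat h₁ a fun i => c (σ (Sum.inl i))) * bra (cat h₂ (fun j => c (σ (Sum.inr j))) b))

/-- The set of all Pluecker relations. -/
def rels (r m : ℕ) : Set (MvPolynomial (Fin r ↪o Fin m) ℂ) :=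
  {p | ∃ (s u : ℕ) (h₁ : s + (u + 1) = r) (h₂ : (s + 1) + u = r) (a : Fin s → Fin m)
    (b : Fin u → Fin m) (c : Fin (u + 1) ⊕ Fin (s + 1) → Fin m), p = rel h₁ h₂ a b c}

end Pool.Agent.Helper49.Plu
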