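import Mathlib
import Pool.Agent.Helper49.Plu.Defs
import Pool.Agent.Helper49.SLnm.Fft

namespace Pool.Agent.Helper49.Plu

open MvPolynomial Pool.Agent.Helper49.SLnm

variable {r m : ℕ}

/-- the concatenation as a sum elimination -/
def eC {s t r : ℕ} (h : s + t = r) : Fin s ⊕ Fin t ≃ Fin r := finSumFinEquiv.trans (finCongr h)

theorem cat_eC {α : Type*} {s t r : ℕ} (h : s + t = r) (a : Fin s → α) (b : Fin t → α)
    (x : Fin s ⊕ Fin t) : cat h a b (eC h x) = Sum.elim a b x := by
  subst h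
  rcases x with x | x
  · simp [cat, eC]
  · simp [cat, eC]

theorem cat_eq {α : Type*} {s t r : ℕ} (h : s + t = r) (a : Fin s → α) (b : Fin t → α) :
    cat h a b = Sum.elim a b ∘ (eC h).symm := by
  funext i
  obtain ⟨x, rfl⟩ := (eC h).surjective i
  rw [cat_eC]
  simp

/-! ### brackets -/

/-- the coefficient matrix of a bracket -/
noncomputable def bm (l : Fin r → Fin m) (J : Fin r ↪o Fin m) : Matrix (Fin r) (Fin r) ℂ :=
  Matrix.of fun i j : Fin r => if l i = J j then (1 : ℂ) else 0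

theorem bra_def (l : Fin r → Fin m) : bra l = ∑ J : Fin r ↪o Fin m, C (bm l J).det * X J := rfl

theorem bra_perm (l : Fin r → Fin m) (π : Equiv.Perm (Fin r)) :
    bra (l ∘ π) = ((Equiv.Perm.sign π : ℤˣ) : ℤ) • bra l := by
  rw [bra_def, bra_def, Finset.smul_sum]
  refine Finset.sum_congr rfl fun J _ => ?_
  have : bm (l ∘ π) J = (bm l J).submatrix π id := rfl
  rw [this, Matrix.det_permute]
  rcases Int.units_eq_one_or (Equiv.Perm.sign π) with h | h <;> rw [h] <;> simp

theorem bra_emb (J : Fin r ↪o Fin m) : bra (J : Fin r → Fin m) = X J := by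
  classical
  rw [bra_def, Finset.sum_eq_single J]
  · have : bm (J : Fin r → Fin m) J = 1 := by
      ext i j
      simp [bm, Matrix.one_apply]
    rw [this]
    simp
  · intro K _ hK
    have : ∃ i, ∀ j, J i ≠ K j := by
      by_contra hcon
      push Not at hcon
      choose f hf using hcon
      have hinj : Function.Injective f := by
        intro x y hxy
        apply J.injective
        rw [hf, hf, hxy]
      have hmono : StrictMono f := by
        intro x y hxy
        have : J x < J y := J.strictMono hxy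
        rw [hf, hf] at this
        exact K.lt_iff_lt.1 this
      have hid : f = id := by
        have hbij : Function.Bijective f := Finite.injective_iff_bijective.1 hinj
        have : (StrictMono.orderIsoOfSurjective f hmono hbij.2) = OrderIso.refl _ :=
          Subsingleton.elim _ _
        funext x
        exact congrArg (fun e : Fin r ≃o Fin r => e x) this
      apply hK
      ext x
      rw [hf x, hid]
      rfl
    obtain ⟨i, hi⟩ := this
    rw [Matrix.det_eq_zero_of_row_eq_zero i]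
    · simp
    · intro j
      simp [bm, hi j]
  · intro h; exact absurd (Finset.mem_univ _) h

theorem bra_not_inj {l : Fin r → Fin m} (h : ¬ Function.Injective l) : bra l = 0 := by
  rw [bra_def]
  apply Finset.sum_eq_zero
  intro J _
  rw [Function.not_injective_iff] at h
  obtain ⟨a, b, hab, hne⟩ := h
  rw [Matrix.det_zero_of_row_eq hne]
  · simp
  · funext j
    simp [bm, hab]

theorem exists_sort {l : Fin r → Fin m} (h : Function.Injective l) :
    ∃ (J : Fin r ↪o Fin m) (π : Equiv.Perm (Fin r)), l = J ∘ π := by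
  have h1 : StrictMono (l ∘ Tuple.sort l) :=
    (Tuple.monotone_sort l).strictMono_of_injective (h.comp (Tuple.sort l).injective)
  refine ⟨OrderEmbedding.ofStrictMono _ h1, (Tuple.sort l)⁻¹, ?_⟩
  funext i
  simp

theorem minor_perm (l : Fin r → Fin m) (π : Equiv.Perm (Fin r)) :
    minor (l ∘ π) = ((Equiv.Perm.sign π : ℤˣ) : ℤ) • minor l := by
  unfold minor
  have : (Matrix.of fun j i : Fin r => (X (j, (l ∘ π) i) : Rm r m)) =
      (Matrix.of fun j i : Fin r => (X (j, l i) : Rm r m)).submatrix id π := rfl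
  rw [this, Matrix.det_permute']
  rcases Int.units_eq_one_or (Equiv.Perm.sign π) with h | h <;> rw [h] <;> simp

theorem minor_not_inj {l : Fin r → Fin m} (h : ¬ Function.Injective l) : minor l = 0 := by
  rw [Function.not_injective_iff] at h
  obtain ⟨a, b, hab, hne⟩ := h
  unfold minor
  apply Matrix.det_zero_of_column_eq hne
  intro i
  simp [hab]

/-- the evaluation at the minors -/
noncomputable def Phi (r m : ℕ) : MvPolynomial (Fin r ↪o Fin m) ℂ →ₐ[ℂ] Rm r m :=
  aeval (R := ℂ) (fun J : Fin r ↪o Fin m => minor (J : Fin r → Fin m))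

theorem Phi_bra (l : Fin r → Fin m) : Phi r m (bra l) = minor l := by
  by_cases h : Function.Injective l
  · obtain ⟨J, π, rfl⟩ := exists_sort h
    rw [bra_perm, bra_emb, minor_perm, map_zsmul, Phi, aeval_X]
  · rw [bra_not_inj h, minor_not_inj h, map_zero]

/-! ### the relations hold for the minors -/

/-- the multilinear function behind the relation -/
noncomputable def mlf {s u : ℕ} (h₁ : s + (u + 1) = r) (h₂ : (s + 1) + u = r)
    (A : Fin s → Fin r → ℂ) (B : Fin u → Fin r → ℂ) :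
    MultilinearMap ℂ (fun _ : Fin (u + 1) ⊕ Fin (s + 1) => Fin r → ℂ) ℂ :=
  (LinearMap.mul' ℂ ℂ).compMultilinearMap (MultilinearMap.domCoprod
    ((((Matrix.detRowAlternating (R := ℂ) (n := Fin r)).toMultilinearMap).domDomCongr
      (eC h₁).symm).currySum A)
    ((((Matrix.detRowAlternating (R := ℂ) (n := Fin r)).toMultilinearMap).domDomCongr
      ((Equiv.sumComm _ _).trans (eC h₂)).symm).currySum B))

theorem mlf_apply {s u : ℕ} (h₁ : s + (u + 1) = r) (h₂ : (s + 1) + u = r)
    (A : Fin s → Fin r → ℂ) (B : Fin u → Fin r → ℂ)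
    (v : Fin (u + 1) ⊕ Fin (s + 1) → Fin r → ℂ) :
    mlf h₁ h₂ A B v = Matrix.det (Matrix.of (cat h₁ A fun i => v (Sum.inl i))) *
      Matrix.det (Matrix.of (cat h₂ (fun j => v (Sum.inr j)) B)) := by
  unfold mlf
  rw [LinearMap.compMultilinearMap_apply, MultilinearMap.domCoprod_apply, LinearMap.mul'_apply]
  congr 1
  · rw [MultilinearMap.currySum_apply', MultilinearMap.domDomCongr_apply]
    change Matrix.det _ = _
    rw [cat_eq]
    rfl
  · rw [MultilinearMap.currySum_apply', MultilinearMap.domDomCongr_apply]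
    change Matrix.det _ = _
    congr 1
    ext i j
    obtain ⟨x, rfl⟩ := (eC h₂).surjective i
    rw [Matrix.of_apply, cat_eC]
    rcases x with x | x <;> simp

theorem cat_map {α β : Type*} {s t r : ℕ} (h : s + t = r) (f : α → β) (a : Fin s → α)
    (b : Fin t → α) (i : Fin r) : f (cat h a b i) = cat h (fun x => f (a x)) (fun x => f (b x)) i := by
  obtain ⟨x, rfl⟩ := (eC h).surjective i
  rw [cat_eC, cat_eC]
  rcases x with x | x <;> rfl

theorem eval_minor (y : Fin r × Fin m → ℂ) (l : Fin r → Fin m) :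
    eval y (minor l) = Matrix.det (Matrix.of fun i j : Fin r => y (j, l i)) := by
  unfold minor
  rw [RingHom.map_det]
  have : ((eval y).mapMatrix (Matrix.of fun j i : Fin r => (X (j, l i) : Rm r m))) =
      (Matrix.of fun i j : Fin r => y (j, l i)).transpose := by
    ext i j
    simp
  rw [this, Matrix.det_transpose]

theorem Phi_rel {s u : ℕ} (h₁ : s + (u + 1) = r) (h₂ : (s + 1) + u = r)
    (a : Fin s → Fin m) (b : Fin u → Fin m) (c : Fin (u + 1) ⊕ Fin (s + 1) → Fin m) :
    Phi r m (rel h₁ h₂ a b c) = 0 := by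
  unfold rel
  apply MvPolynomial.funext
  intro y
  rw [map_sum, map_sum, map_zero]
  set Y : Fin m → Fin r → ℂ := fun k j => y (j, k) with hY
  have h1 := MultilinearMap.alternatization_apply (mlf h₁ h₂ (fun x => Y (a x)) (fun x => Y (b x)))
    (fun x => Y (c x))
  have h2 : ¬ LinearIndependent ℂ (fun x : Fin (u + 1) ⊕ Fin (s + 1) => Y (c x)) := by
    intro hli
    have := hli.fintype_card_le_finrank
    simp at this
    omega
  rw [AlternatingMap.map_linearDependent _ _ h2] at h1
  rw [h1]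
  refine Finset.sum_congr rfl fun σ _ => ?_
  rw [map_zsmul, map_zsmul, map_mul, map_mul, Phi_bra, Phi_bra, eval_minor, eval_minor,
    MultilinearMap.domDomCongr_apply, mlf_apply, Units.smul_def]
  congr 3
  · congr 1
    ext i j
    change Y _ j = _
    rw [cat_map h₁ Y]
  · congr 1
    ext i j
    change Y _ j = _
    rw [cat_map h₂ Y]

/-! ### straightening -/

/-- the sum of the entries -/
def SS (l : Fin r → Fin m) : ℕ := ∑ i, (l i : ℕ)

theorem SS_perm (l : Fin r → Fin m) (π : Equiv.Perm (Fin r)) : SS (l ∘ π) = SS l :=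
  Equiv.sum_comp π (fun i => (l i : ℕ))

theorem SS_cat {s t : ℕ} (h : s + t = r) (a : Fin s → Fin m) (b : Fin t → Fin m) :
    SS (cat h a b) = (∑ i, (a i : ℕ)) + ∑ j, (b j : ℕ) := by
  unfold SS
  rw [← (eC h).sum_comp, Fintype.sum_sum_type]
  congr 1
  · refine Finset.sum_congr rfl fun i _ => ?_
    rw [cat_eC]; rfl
  · refine Finset.sum_congr rfl fun i _ => ?_
    rw [cat_eC]; rfl

theorem SS_le (l : Fin r → Fin m) : SS l ≤ r * m := by
  unfold SS
  calc ∑ i, (l i : ℕ) ≤ ∑ _i : Fin r, m := Finset.sum_le_sum fun i _ => (l i).isLt.le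
    _ = r * m := by simp

/-- the comparability condition defining standard monomials -/
def Std (α : (Fin r ↪o Fin m) →₀ ℕ) : Prop :=
  ∀ J ∈ α.support, ∀ K ∈ α.support, (∀ i, J i ≤ K i) ∨ (∀ i, K i ≤ J i)

/-- ideal of relations plus span of standard monomials -/
noncomputable def MM (r m : ℕ) : Submodule ℂ (MvPolynomial (Fin r ↪o Fin m) ℂ) :=
  (Ideal.span (rels r m)).restrictScalars ℂ ⊔
    Submodule.span ℂ {p | ∃ β : (Fin r ↪o Fin m) →₀ ℕ, Std β ∧ p = monomial β 1}

theorem sum_exch {s u : ℕ} (c : Fin (u + 1) ⊕ Fin (s + 1) → Fin m) (θ : Fin m)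
    (hl : ∀ i, θ ≤ c (Sum.inl i)) (hr : ∀ j, c (Sum.inr j) < θ)
    (σ : Equiv.Perm (Fin (u + 1) ⊕ Fin (s + 1))) (i0 : Fin (u + 1)) (j0 : Fin (s + 1))
    (h0 : σ (Sum.inl i0) = Sum.inr j0) :
    ∑ i, (c (σ (Sum.inl i)) : ℕ) < ∑ i, (c (Sum.inl i) : ℕ) := by
  classical
  have hl' : ∀ i, (θ : ℤ) ≤ (c (Sum.inl i) : ℕ) := fun i => by exact_mod_cast hl i
  have hr' : ∀ j, ((c (Sum.inr j) : ℕ) : ℤ) < θ := fun j => by exact_mod_cast hr j
  set g : Fin (u + 1) ⊕ Fin (s + 1) → ℤ := fun x => ((c x : ℕ) : ℤ) - θ with hg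
  set gp : Fin (u + 1) ⊕ Fin (s + 1) → ℤ := Sum.elim (fun i => g (Sum.inl i)) (fun _ => 0) with hgp
  have h1 : ∀ x, g x ≤ gp x := by
    rintro (x | x)
    · exact le_rfl
    · simp only [hgp, Sum.elim_inr, hg]
      have := hr' x
      omega
  have h2 : ∀ x, 0 ≤ gp x := by
    rintro (x | x)
    · simp only [hgp, Sum.elim_inl, hg]
      have := hl' x
      omega
    · exact le_rfl
  have h3 : ∑ i, g (σ (Sum.inl i)) < ∑ i, gp (σ (Sum.inl i)) := by
    apply Finset.sum_lt_sum
    · intro i _; exact h1 _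
    · refine ⟨i0, Finset.mem_univ _, ?_⟩
      rw [h0]
      simp only [hgp, Sum.elim_inr, hg]
      have := hr' j0
      omega
  have h4 : ∑ x, gp x = ∑ i, g (Sum.inl i) := by
    rw [Fintype.sum_sum_type]
    simp [hgp]
  have h5 : ∑ x, gp x = ∑ i, gp (σ (Sum.inl i)) + ∑ j, gp (σ (Sum.inr j)) := by
    rw [← Equiv.sum_comp σ, Fintype.sum_sum_type]
  have h6 : 0 ≤ ∑ j, gp (σ (Sum.inr j)) := Finset.sum_nonneg fun j _ => h2 _
  have h7 : ∑ i, g (σ (Sum.inl i)) < ∑ i, g (Sum.inl i) := by linarith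
  simp only [hg, Finset.sum_sub_distrib] at h7
  have h8 : ((∑ i, (c (σ (Sum.inl i)) : ℕ) : ℕ) : ℤ) < ((∑ i, (c (Sum.inl i) : ℕ) : ℕ) : ℤ) := by
    push_cast
    linarith
  exact_mod_cast h8

theorem zsq_unit (e : ℤˣ) {A : Type*} [AddCommGroup A] (x : A) :
    (e : ℤ) • (e : ℤ) • x = x := by
  rcases Int.units_eq_one_or e with h | h <;> rw [h] <;> simp

theorem bra_block {s u : ℕ} (h₁ : s + (u + 1) = r) (h₂ : (s + 1) + u = r)
    (a : Fin s → Fin m) (b : Fin u → Fin m) (c : Fin (u + 1) ⊕ Fin (s + 1) → Fin m)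
    (σ₁ : Equiv.Perm (Fin (u + 1))) (σ₂ : Equiv.Perm (Fin (s + 1))) :
    ((Equiv.Perm.sign (Equiv.Perm.sumCongr σ₁ σ₂) : ℤˣ) : ℤ) •
    (bra (cat h₁ a fun i => c (Equiv.Perm.sumCongr σ₁ σ₂ (Sum.inl i))) *
      bra (cat h₂ (fun j => c (Equiv.Perm.sumCongr σ₁ σ₂ (Sum.inr j))) b)) =
    bra (cat h₁ a fun i => c (Sum.inl i)) * bra (cat h₂ (fun j => c (Sum.inr j)) b) := by
  have e1 : (cat h₁ a fun i => c (Equiv.Perm.sumCongr σ₁ σ₂ (Sum.inl i))) =
      (cat h₁ a fun i => c (Sum.inl i)) ∘ ((eC h₁).permCongr (Equiv.Perm.sumCongr 1 σ₁)) := by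
    funext i
    obtain ⟨x, rfl⟩ := (eC h₁).surjective i
    rw [Function.comp_apply, Equiv.permCongr_apply, Equiv.symm_apply_apply, cat_eC, cat_eC]
    rcases x with x | x <;> simp
  have e2 : (cat h₂ (fun j => c (Equiv.Perm.sumCongr σ₁ σ₂ (Sum.inr j))) b) =
      (cat h₂ (fun j => c (Sum.inr j)) b) ∘
        ((eC h₂).permCongr (Equiv.Perm.sumCongr σ₂ 1)) := by
    funext i
    obtain ⟨x, rfl⟩ := (eC h₂).surjective i
    rw [Function.comp_apply, Equiv.permCongr_apply, Equiv.symm_apply_apply, cat_eC, cat_eC]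
    rcases x with x | x <;> simp
  rw [e1, e2, bra_perm, bra_perm, Equiv.Perm.sign_permCongr, Equiv.Perm.sign_permCongr,
    Equiv.Perm.sign_sumCongr, Equiv.Perm.sign_sumCongr, Equiv.Perm.sign_sumCongr]
  simp only [Equiv.Perm.sign_one, one_mul, mul_one, Units.val_mul, smul_mul_assoc, mul_smul_comm]
  rw [mul_smul, zsq_unit]
  rw [smul_comm, smul_comm, zsq_unit]

theorem straight_step (J K : Fin r ↪o Fin m) (s0 : Fin r) (hs : K s0 < J s0)
    (γ : (Fin r ↪o Fin m) →₀ ℕ)
    (IH : ∀ J' K' : Fin r ↪o Fin m, SS J' < SS J → SS J' + SS K' = SS J + SS K →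
      X J' * X K' * monomial γ (1 : ℂ) ∈ MM r m) :
    X J * X K * monomial γ (1 : ℂ) ∈ MM r m := by
  classical
  obtain ⟨s, u, h₁, h₂, hs0⟩ : ∃ s u : ℕ, ∃ (h₁ : s + (u + 1) = r) (h₂ : (s + 1) + u = r),
      (s0 : ℕ) = s := ⟨s0, r - 1 - s0, by omega, by omega, rfl⟩
  set a : Fin s → Fin m := fun i => J (eC h₁ (Sum.inl i)) with ha
  set b : Fin u → Fin m := fun j => K (eC h₂ (Sum.inr j)) with hb
  set c : Fin (u + 1) ⊕ Fin (s + 1) → Fin m :=
    Sum.elim (fun i => J (eC h₁ (Sum.inr i))) (fun j => K (eC h₂ (Sum.inl j))) with hc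
  have hJ : (cat h₁ a fun i => c (Sum.inl i)) = J := by
    funext i
    obtain ⟨x, rfl⟩ := (eC h₁).surjective i
    rw [cat_eC]
    rcases x with x | x <;> rfl
  have hK : (cat h₂ (fun j => c (Sum.inr j)) b) = K := by
    funext i
    obtain ⟨x, rfl⟩ := (eC h₂).surjective i
    rw [cat_eC]
    rcases x with x | x <;> rfl
  have hl : ∀ i, J s0 ≤ c (Sum.inl i) := by
    intro i
    change J s0 ≤ J _
    apply J.monotone
    rw [Fin.le_def, hs0]
    simp [eC]
  have hr : ∀ j, c (Sum.inr j) < J s0 := by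
    intro j
    refine lt_of_le_of_lt ?_ hs
    change K _ ≤ K s0
    apply K.monotone
    rw [Fin.le_def, hs0]
    simp [eC]
    omega
  set T : Equiv.Perm (Fin (u + 1) ⊕ Fin (s + 1)) → MvPolynomial (Fin r ↪o Fin m) ℂ := fun σ =>
    ((Equiv.Perm.sign σ : ℤˣ) : ℤ) •
    (bra (cat h₁ a fun i => c (σ (Sum.inl i))) * bra (cat h₂ (fun j => c (σ (Sum.inr j))) b))
    with hT
  have hrel : ∑ σ, T σ * monomial γ (1 : ℂ) ∈ MM r m := by
    rw [← Finset.sum_mul]
    apply Submodule.mem_sup_left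
    change (∑ σ, T σ) * monomial γ (1 : ℂ) ∈ Ideal.span (rels r m)
    apply Ideal.mul_mem_right
    apply Ideal.subset_span
    exact ⟨s, u, h₁, h₂, a, b, c, rfl⟩
  set Bl : Finset (Equiv.Perm (Fin (u + 1) ⊕ Fin (s + 1))) :=
    Finset.univ.filter (fun σ => ∀ i, ∃ j, σ (Sum.inl i) = Sum.inl j) with hBl
  have hB : ∀ σ ∈ Bl, T σ = X J * X K := by
    intro σ hσ
    rw [hBl, Finset.mem_filter] at hσ
    have : σ ∈ (Equiv.Perm.sumCongrHom (Fin (u + 1)) (Fin (s + 1))).range := by
      apply Equiv.Perm.mem_sumCongrHom_range_of_perm_mapsTo_inl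
      rintro _ ⟨i, rfl⟩
      obtain ⟨j, hj⟩ := hσ.2 i
      exact ⟨j, hj.symm⟩
    obtain ⟨⟨σ₁, σ₂⟩, rfl⟩ := this
    rw [Equiv.Perm.sumCongrHom_apply, hT]
    simp only []
    rw [bra_block h₁ h₂ a b c σ₁ σ₂, hJ, hK, bra_emb, bra_emb]
  have hnB : ∀ σ ∉ Bl, T σ * monomial γ (1 : ℂ) ∈ MM r m := by
    intro σ hσ
    rw [hBl, Finset.mem_filter] at hσ
    simp only [Finset.mem_univ, true_and] at hσ
    push Not at hσ
    obtain ⟨i0, hi0⟩ := hσ
    obtain ⟨j0, hj0⟩ : ∃ j0, σ (Sum.inl i0) = Sum.inr j0 := by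
      rcases h : σ (Sum.inl i0) with x | x
      · exact absurd h (hi0 x)
      · exact ⟨x, rfl⟩
    have hlt := sum_exch c (J s0) hl hr σ i0 j0 hj0
    rw [hT]
    simp only []
    rw [smul_mul_assoc]
    apply zsmul_mem
    by_cases g1 : Function.Injective (cat h₁ a fun i => c (σ (Sum.inl i)))
    swap
    · rw [bra_not_inj g1, zero_mul, zero_mul]
      exact Submodule.zero_mem _
    by_cases g2 : Function.Injective (cat h₂ (fun j => c (σ (Sum.inr j))) b)
    swap
    · rw [bra_not_inj g2, mul_zero, zero_mul]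
      exact Submodule.zero_mem _
    obtain ⟨J', π₁, hJ'⟩ := exists_sort g1
    obtain ⟨K', π₂, hK'⟩ := exists_sort g2
    have k1 : SS (J' : Fin r → Fin m) = ∑ i, (a i : ℕ) + ∑ i, (c (σ (Sum.inl i)) : ℕ) := by
      rw [← SS_perm _ π₁, ← hJ', SS_cat]
    have k2 : SS (K' : Fin r → Fin m) = ∑ i, (c (σ (Sum.inr i)) : ℕ) + ∑ i, (b i : ℕ) := by
      rw [← SS_perm _ π₂, ← hK', SS_cat]
    have k3 : SS (J : Fin r → Fin m) = ∑ i, (a i : ℕ) + ∑ i, (c (Sum.inl i) : ℕ) := by
      rw [← hJ, SS_cat]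
    have k4 : SS (K : Fin r → Fin m) = ∑ i, (c (Sum.inr i) : ℕ) + ∑ i, (b i : ℕ) := by
      rw [← hK, SS_cat]
    have k5 : ∑ i, (c (σ (Sum.inl i)) : ℕ) + ∑ i, (c (σ (Sum.inr i)) : ℕ) =
        ∑ i, (c (Sum.inl i) : ℕ) + ∑ i, (c (Sum.inr i) : ℕ) := by
      rw [← Fintype.sum_sum_type (fun x => (c (σ x) : ℕ)), ← Fintype.sum_sum_type (fun x => (c x : ℕ))]
      exact Equiv.sum_comp σ (fun x => (c x : ℕ))
    rw [hJ', hK', bra_perm, bra_perm, bra_emb, bra_emb, smul_mul_smul_comm, smul_mul_assoc]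
    apply zsmul_mem
    exact IH J' K' (by omega) (by omega)
  have hsum : ∑ σ, T σ * monomial γ (1 : ℂ) =
      Bl.card • (X J * X K * monomial γ (1 : ℂ)) + ∑ σ ∈ Blᶜ, T σ * monomial γ (1 : ℂ) := by
    rw [← Finset.sum_add_sum_compl Bl]
    congr 1
    rw [← Finset.sum_const]
    refine Finset.sum_congr rfl fun σ hσ => ?_
    rw [hB σ hσ]
  have h1 : Bl.card • (X J * X K * monomial γ (1 : ℂ)) ∈ MM r m := by
    have : Bl.card • (X J * X K * monomial γ (1 : ℂ)) =
        ∑ σ, T σ * monomial γ (1 : ℂ) - ∑ σ ∈ Blᶜ, T σ * monomial γ (1 : ℂ) := by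
      rw [hsum]; abel
    rw [this]
    refine Submodule.sub_mem _ hrel (Submodule.sum_mem _ fun σ hσ => hnB σ ?_)
    exact Finset.mem_compl.1 hσ
  have h2 : (Bl.card : ℂ) ≠ 0 := by
    have : (1 : Equiv.Perm (Fin (u + 1) ⊕ Fin (s + 1))) ∈ Bl := by
      rw [hBl, Finset.mem_filter]
      exact ⟨Finset.mem_univ _, fun i => ⟨i, rfl⟩⟩
    have := Finset.card_pos.2 ⟨_, this⟩
    exact_mod_cast this.ne'
  have h3 : X J * X K * monomial γ (1 : ℂ) =
      (Bl.card : ℂ)⁻¹ • (Bl.card • (X J * X K * monomial γ (1 : ℂ))) := by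
    rw [← Nat.cast_smul_eq_nsmul ℂ, smul_smul, inv_mul_cancel₀ h2, one_smul]
  rw [h3]
  exact Submodule.smul_mem _ _ h1

/-- the weight which decreases under straightening -/
def ww (J : Fin r ↪o Fin m) : ℕ := (r * m) ^ 2 - (SS J) ^ 2

theorem monomial_eq_mul (J K : Fin r ↪o Fin m) (γ : (Fin r ↪o Fin m) →₀ ℕ) :
    monomial (γ + Finsupp.single K 1 + Finsupp.single J 1) (1 : ℂ) =
      X J * X K * monomial γ (1 : ℂ) := by
  rw [X, X, monomial_mul, monomial_mul, one_mul, one_mul]
  congr 1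
  rw [add_comm (Finsupp.single J 1) (Finsupp.single K 1), add_comm _ γ, add_assoc]

theorem ww_lt (J K J' K' : Fin r ↪o Fin m) (hS : SS J ≤ SS K) (h1 : SS J' < SS J)
    (h2 : SS J' + SS K' = SS J + SS K) : ww J' + ww K' < ww J + ww K := by
  have a1 := Nat.pow_le_pow_left (SS_le (J : Fin r → Fin m)) 2
  have a2 := Nat.pow_le_pow_left (SS_le (K : Fin r → Fin m)) 2
  have a3 := Nat.pow_le_pow_left (SS_le (J' : Fin r → Fin m)) 2
  have a4 := Nat.pow_le_pow_left (SS_le (K' : Fin r → Fin m)) 2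
  have key : SS J ^ 2 + SS K ^ 2 < SS J' ^ 2 + SS K' ^ 2 := by
    obtain ⟨d, hd⟩ := Nat.exists_eq_add_of_lt h1
    have hK' : SS K' = SS K + (d + 1) := by omega
    obtain ⟨e, he⟩ := Nat.exists_eq_add_of_le hS
    rw [hK', he, hd]
    nlinarith
  unfold ww
  omega

theorem straight : ∀ (N : ℕ) (α : (Fin r ↪o Fin m) →₀ ℕ), Finsupp.weight ww α = N →
    monomial α (1 : ℂ) ∈ MM r m := by
  intro N
  induction N using Nat.strong_induction_on with
  | _ N ih =>
    intro α hα
    by_cases hst : Std α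
    · exact Submodule.mem_sup_right (Submodule.subset_span ⟨α, hst, rfl⟩)
    · obtain ⟨J, hJ, K, hK, s0, hs0, hS⟩ : ∃ J ∈ α.support, ∃ K ∈ α.support, ∃ s0,
          K s0 < J s0 ∧ SS J ≤ SS K := by
        unfold Std at hst
        push Not at hst
        obtain ⟨J, hJ, K, hK, ⟨i, hi⟩, ⟨j, hj⟩⟩ := hst
        rcases le_total (SS J) (SS K) with h | h
        · exact ⟨J, hJ, K, hK, i, hi, h⟩
        · exact ⟨K, hK, J, hJ, j, hj, h⟩
      have hne : J ≠ K := by rintro rfl; exact lt_irrefl _ hs0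
      rw [Finsupp.mem_support_iff] at hJ hK
      have e1 := Finsupp.sub_add_single_one_cancel hJ
      have hK2 : (α - Finsupp.single J 1 : (Fin r ↪o Fin m) →₀ ℕ) K ≠ 0 := by
        rw [Finsupp.tsub_apply, Finsupp.single_eq_of_ne hne.symm]
        simpa using hK
      have e2 := Finsupp.sub_add_single_one_cancel hK2
      set γ := α - Finsupp.single J 1 - Finsupp.single K 1 with hγ
      have e3 : α = γ + Finsupp.single K 1 + Finsupp.single J 1 := by rw [e2, e1]
      rw [e3, monomial_eq_mul]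
      apply straight_step J K s0 hs0
      intro J' K' h1 h2
      rw [← monomial_eq_mul]
      refine ih _ ?_ _ rfl
      rw [← hα, e3]
      simp only [map_add, Finsupp.weight_single, one_smul]
      have := ww_lt J K J' K' hS h1 h2
      omega

theorem mem_MM (Q : MvPolynomial (Fin r ↪o Fin m) ℂ) : Q ∈ MM r m := by
  rw [← support_sum_monomial_coeff Q]
  refine Submodule.sum_mem _ fun α _ => ?_
  have : monomial α (coeff α Q) = coeff α Q • monomial α (1 : ℂ) := by
    rw [smul_monomial, smul_eq_mul, mul_one]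
  rw [this]
  exact Submodule.smul_mem _ _ (straight _ α rfl)

theorem span_le_ker : Ideal.span (rels r m) ≤ RingHom.ker (Phi r m) := by
  rw [Ideal.span_le]
  rintro _ ⟨s, u, h₁, h₂, a, b, c, rfl⟩
  exact Phi_rel h₁ h₂ a b c

/-! ### independence of standard monomials -/

/-- the diagonal monomial -/
noncomputable def diag (l : Fin r → Fin m) : Lex (Fin r × Fin m) →₀ ℕ :=
  ∑ i, Finsupp.single (toLex (i, l i)) 1

theorem diag_apply (l : Fin r → Fin m) (i : Fin r) (j : Fin m) :
    diag l (toLex (i, j)) = if l i = j then 1 else 0 := by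
  classical
  unfold diag
  rw [Finsupp.finsetSum_apply, Finset.sum_eq_single i]
  · rw [Finsupp.single_apply]
    by_cases h : l i = j
    · rw [if_pos (by rw [h]), if_pos h]
    · rw [if_neg, if_neg h]
      intro hcon
      have := congrArg (fun x => (ofLex x).2) hcon
      exact h this
  · intro i' _ hne
    rw [Finsupp.single_apply, if_neg]
    intro hcon
    exact hne (congrArg (fun x => (ofLex x).1) hcon)
  · intro h; exact absurd (Finset.mem_univ _) h

theorem diag_lt (J : Fin r ↪o Fin m) (τ : Equiv.Perm (Fin r)) (hτ : τ ≠ 1) :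
    toLex (diag (J ∘ τ)) < toLex (diag (J : Fin r → Fin m)) := by
  classical
  -- first moved point
  have hne : (Finset.univ.filter fun i => τ i ≠ i).Nonempty := by
    by_contra hcon
    apply hτ
    ext i
    by_contra hi
    exact hcon ⟨i, by simpa [Fin.ext_iff] using hi⟩
  set j0 := (Finset.univ.filter fun i => τ i ≠ i).min' hne with hj0
  have hj1 : τ j0 ≠ j0 := by
    have := Finset.min'_mem _ hne
    rw [Finset.mem_filter] at this
    exact this.2
  have hj2 : ∀ i < j0, τ i = i := by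
    intro i hi
    by_contra hcon
    have := Finset.min'_le (Finset.univ.filter fun i => τ i ≠ i) i (by simp [hcon])
    exact absurd hi (not_lt.2 this)
  have hj3 : j0 < τ j0 := by
    rcases lt_trichotomy (τ j0) j0 with h | h | h
    · have := hj2 _ h
      exact absurd (τ.injective this) hj1
    · exact absurd h hj1
    · exact h
  rw [Finsupp.Lex.lt_iff]
  refine ⟨toLex (j0, J j0), ?_, ?_⟩
  · intro d hd
    obtain ⟨⟨i, j⟩, rfl⟩ := toLex.surjective d
    rw [Prod.Lex.toLex_lt_toLex] at hd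
    change diag (J ∘ τ) (toLex (i, j)) = diag (J : Fin r → Fin m) (toLex (i, j))
    rw [diag_apply, diag_apply]
    rcases hd with hd | ⟨hd1, hd2⟩
    · simp only [] at hd
      rw [Function.comp_apply, hj2 i hd]
    · simp only [] at hd1 hd2
      subst hd1
      have : J j0 < J (τ j0) := J.strictMono hj3
      rw [Function.comp_apply, if_neg, if_neg]
      · exact hd2.ne'
      · exact (hd2.trans this).ne'
  · change diag (J ∘ τ) (toLex (j0, J j0)) < diag (J : Fin r → Fin m) (toLex (j0, J j0))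
    rw [diag_apply, diag_apply, if_neg, if_pos rfl]
    · exact zero_lt_one
    · intro h
      exact hj1 (J.injective h)

/-- the evaluation at the minors, in lexicographically ordered variables -/
noncomputable def PhiL (r m : ℕ) :
    MvPolynomial (Fin r ↪o Fin m) ℂ →ₐ[ℂ] MvPolynomial (Lex (Fin r × Fin m)) ℂ :=
  (rename (toLex : Fin r × Fin m → Lex (Fin r × Fin m))).comp (Phi r m)

/-- the monomial order -/
noncomputable abbrev ord (r m : ℕ) : MonomialOrder (Lex (Fin r × Fin m)) := MonomialOrder.lex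

theorem PhiL_X (J : Fin r ↪o Fin m) : PhiL r m (X J) =
    ∑ τ : Equiv.Perm (Fin r), ((Equiv.Perm.sign τ : ℤˣ) : ℤ) •
      monomial (diag (J ∘ τ)) (1 : ℂ) := by
  unfold PhiL Phi
  rw [AlgHom.comp_apply, aeval_X]
  unfold minor
  rw [← Matrix.det_transpose, Matrix.det_apply, map_sum]
  refine Finset.sum_congr rfl fun τ _ => ?_
  rw [Units.smul_def, map_zsmul, map_prod]
  congr 1
  unfold diag
  rw [monomial_sum_one]
  refine Finset.prod_congr rfl fun i _ => ?_
  rw [Matrix.transpose_apply, Matrix.of_apply, rename_X]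
  rfl

theorem coeff_PhiL_X (J : Fin r ↪o Fin m) (d : Lex (Fin r × Fin m) →₀ ℕ)
    (hd : coeff d (PhiL r m (X J)) ≠ 0) : ∃ τ : Equiv.Perm (Fin r), diag (J ∘ τ) = d := by
  classical
  by_contra hcon
  push Not at hcon
  apply hd
  rw [PhiL_X, coeff_sum]
  apply Finset.sum_eq_zero
  intro τ _
  rw [coeff_smul, coeff_monomial, if_neg (hcon τ), smul_zero]

theorem coeff_PhiL_diag (J : Fin r ↪o Fin m) :
    coeff (diag (J : Fin r → Fin m)) (PhiL r m (X J)) = 1 := by
  classical
  rw [PhiL_X, coeff_sum, Finset.sum_eq_single 1]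
  · rw [coeff_smul, coeff_monomial, if_pos (by rfl)]
    simp
  · intro τ _ hτ
    rw [coeff_smul, coeff_monomial, if_neg, smul_zero]
    intro h
    have := diag_lt J τ hτ
    rw [h] at this
    exact lt_irrefl _ this
  · intro h; exact absurd (Finset.mem_univ _) h

/-- `f` is monic of degree `μ` -/
def LMon (f : MvPolynomial (Lex (Fin r × Fin m)) ℂ) (μ : Lex (Fin r × Fin m) →₀ ℕ) : Prop :=
  (ord r m).Monic f ∧ (ord r m).degree f = μ

theorem LMon_X (J : Fin r ↪o Fin m) :
    LMon (PhiL r m (X J)) (diag (J : Fin r → Fin m)) := by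
  have h1 : (ord r m).degree (PhiL r m (X J)) = diag (J : Fin r → Fin m) := by
    apply (ord r m).toSyn.injective
    apply le_antisymm
    · rw [MonomialOrder.degree_le_iff]
      intro c hc
      rw [mem_support_iff] at hc
      obtain ⟨τ, rfl⟩ := coeff_PhiL_X J c hc
      by_cases hτ : τ = 1
      · subst hτ; exact le_rfl
      · exact (diag_lt J τ hτ).le
    · apply MonomialOrder.le_degree
      rw [mem_support_iff, coeff_PhiL_diag]
      exact one_ne_zero
  refine ⟨?_, h1⟩
  unfold MonomialOrder.Monic MonomialOrder.leadingCoeff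
  rw [h1, coeff_PhiL_diag]

theorem LMon_mul {f g : MvPolynomial (Lex (Fin r × Fin m)) ℂ} {μ ν : Lex (Fin r × Fin m) →₀ ℕ}
    (hf : LMon f μ) (hg : LMon g ν) : LMon (f * g) (μ + ν) :=
  ⟨hf.1.mul hg.1, by rw [MonomialOrder.degree_mul hf.1.ne_zero hg.1.ne_zero, hf.2, hg.2]⟩

/-- the exponent of the leading monomial -/
noncomputable def ee (r m : ℕ) : ((Fin r ↪o Fin m) →₀ ℕ) →+ (Lex (Fin r × Fin m) →₀ ℕ) :=
  Finsupp.weight (fun J : Fin r ↪o Fin m => diag (J : Fin r → Fin m))

theorem ee_single (J : Fin r ↪o Fin m) (k : ℕ) :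
    ee r m (Finsupp.single J k) = k • diag (J : Fin r → Fin m) := by
  unfold ee
  rw [Finsupp.weight_single]

theorem LMon_monomial (β : (Fin r ↪o Fin m) →₀ ℕ) :
    LMon (PhiL r m (monomial β 1)) (ee r m β) := by
  induction β using Finsupp.induction_linear with
  | zero =>
    have h : (monomial (0 : (Fin r ↪o Fin m) →₀ ℕ)) (1 : ℂ) = 1 := rfl
    rw [h, map_one, map_zero]
    exact ⟨MonomialOrder.monic_one, MonomialOrder.degree_one⟩
  | add α β hα hβ =>
    have h : (monomial (α + β)) (1 : ℂ) = monomial α 1 * monomial β 1 := by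
      rw [monomial_mul, one_mul]
    rw [h, map_mul, map_add]
    exact LMon_mul hα hβ
  | single J k =>
    induction k with
    | zero =>
      rw [Finsupp.single_zero]
      have h : (monomial (0 : (Fin r ↪o Fin m) →₀ ℕ)) (1 : ℂ) = 1 := rfl
      rw [h, map_one, map_zero]
      exact ⟨MonomialOrder.monic_one, MonomialOrder.degree_one⟩
    | succ k ih =>
      have h : (monomial (Finsupp.single J (k + 1))) (1 : ℂ) =
          monomial (Finsupp.single J k) 1 * X J := by
        rw [X, monomial_mul, one_mul, ← Finsupp.single_add]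
      rw [h, map_mul, Finsupp.single_add, map_add, ee_single J 1, one_smul]
      exact LMon_mul ih (LMon_X J)

theorem ee_ne_zero (β : (Fin r ↪o Fin m) →₀ ℕ) (i : Fin r) (j : Fin m) :
    ee r m β (toLex (i, j)) ≠ 0 ↔ ∃ J ∈ β.support, J i = j := by
  classical
  have h1 : ee r m β (toLex (i, j)) = ∑ J ∈ β.support, β J * (if J i = j then 1 else 0) := by
    unfold ee
    rw [Finsupp.weight_apply, Finsupp.sum, Finsupp.finsetSum_apply]
    refine Finset.sum_congr rfl fun J _ => ?_
    rw [Finsupp.smul_apply, diag_apply, smul_eq_mul]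
  rw [h1, Ne, Finset.sum_eq_zero_iff]
  push Not
  constructor
  · rintro ⟨J, hJ, h⟩
    refine ⟨J, hJ, ?_⟩
    by_contra hcon
    rw [if_neg hcon] at h
    exact h rfl
  · rintro ⟨J, hJ, h⟩
    refine ⟨J, hJ, ?_⟩
    rw [if_pos h, mul_one]
    exact Finsupp.mem_support_iff.1 hJ

theorem exists_max {α : (Fin r ↪o Fin m) →₀ ℕ} (hα : Std α) (h0 : α ≠ 0) :
    ∃ J ∈ α.support, ∀ K ∈ α.support, ∀ i, K i ≤ J i := by
  obtain ⟨J, hJ, hmax⟩ := Finset.exists_max_image α.support
    (fun J : Fin r ↪o Fin m => SS (J : Fin r → Fin m)) (Finsupp.support_nonempty_iff.2 h0)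
  refine ⟨J, hJ, fun K hK => ?_⟩
  rcases hα K hK J hJ with h | h
  · exact h
  · intro i
    by_contra hcon
    push Not at hcon
    have h1 := hmax K hK
    have h2 : SS (J : Fin r → Fin m) < SS (K : Fin r → Fin m) := by
      unfold SS
      apply Finset.sum_lt_sum
      · intro i _; exact_mod_cast h i
      · exact ⟨i, Finset.mem_univ _, by exact_mod_cast hcon⟩
    exact absurd h1 (not_le.2 h2)

theorem ee_inj (hr : 0 < r) : ∀ (N : ℕ) (α β : (Fin r ↪o Fin m) →₀ ℕ), α.degree = N → Std α →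
    Std β → ee r m α = ee r m β → α = β := by
  intro N
  induction N with
  | zero =>
    intro α β hN _ _ he
    have h0 : α = 0 := by
      rwa [Finsupp.degree_eq_zero_iff] at hN
    subst h0
    rw [map_zero] at he
    by_contra hne
    obtain ⟨J, hJ⟩ := Finsupp.support_nonempty_iff.2 (Ne.symm hne)
    have := (ee_ne_zero β ⟨0, hr⟩ (J ⟨0, hr⟩)).2 ⟨J, hJ, rfl⟩
    rw [← he] at this
    exact this rfl
  | succ N ih =>
    intro α β hN hα hβ he
    have h0 : α ≠ 0 := by
      rintro rfl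
      simp at hN
    obtain ⟨J, hJ, hJm⟩ := exists_max hα h0
    have h1 : β ≠ 0 := by
      rintro rfl
      have := (ee_ne_zero α ⟨0, hr⟩ (J ⟨0, hr⟩)).2 ⟨J, hJ, rfl⟩
      rw [he, map_zero] at this
      exact this rfl
    obtain ⟨K, hK, hKm⟩ := exists_max hβ h1
    have hJK : J = K := by
      ext i
      have a1 : K i ≤ J i := by
        have := (ee_ne_zero β i (K i)).2 ⟨K, hK, rfl⟩
        rw [← he] at this
        obtain ⟨L, hL, hLi⟩ := (ee_ne_zero α i (K i)).1 this
        rw [← hLi]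
        exact hJm L hL i
      have a2 : J i ≤ K i := by
        have := (ee_ne_zero α i (J i)).2 ⟨J, hJ, rfl⟩
        rw [he] at this
        obtain ⟨L, hL, hLi⟩ := (ee_ne_zero β i (J i)).1 this
        rw [← hLi]
        exact hKm L hL i
      rw [le_antisymm a1 a2]
    subst hJK
    have e1 := Finsupp.sub_add_single_one_cancel (Finsupp.mem_support_iff.1 hJ)
    have e2 := Finsupp.sub_add_single_one_cancel (Finsupp.mem_support_iff.1 hK)
    have sub1 : ∀ {δ : (Fin r ↪o Fin m) →₀ ℕ}, Std δ → Std (δ - Finsupp.single J 1) := by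
      intro δ hδ A hA B hB
      have hsub : ∀ A ∈ (δ - Finsupp.single J 1 : (Fin r ↪o Fin m) →₀ ℕ).support,
          A ∈ δ.support := by
        intro A hA
        rw [Finsupp.mem_support_iff] at hA ⊢
        intro h
        apply hA
        rw [Finsupp.tsub_apply, h, Nat.zero_sub]
      exact hδ A (hsub A hA) B (hsub B hB)
    have e3 : α - Finsupp.single J 1 = β - Finsupp.single J 1 := by
      apply ih
      · have := congrArg Finsupp.degree e1
        rw [map_add, Finsupp.degree_single, hN] at this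
        omega
      · exact sub1 hα
      · exact sub1 hβ
      · rw [← e1, ← e2, map_add, map_add] at he
        exact add_right_cancel he
    rw [← e1, ← e2, e3]

theorem support_std {p : MvPolynomial (Fin r ↪o Fin m) ℂ}
    (hp : p ∈ Submodule.span ℂ {p | ∃ β : (Fin r ↪o Fin m) →₀ ℕ, Std β ∧ p = monomial β 1}) :
    ∀ β ∈ p.support, Std β := by
  classical
  induction hp using Submodule.span_induction with
  | mem p hp =>
    obtain ⟨β, hβ, rfl⟩ := hp
    intro γ hγ
    have := support_monomial_subset hγ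
    rw [Finset.mem_singleton] at this
    rwa [this]
  | zero => intro β hβ; simp at hβ
  | add p q _ _ hp hq =>
    intro β hβ
    rcases Finset.mem_union.1 (support_add hβ) with h | h
    · exact hp β h
    · exact hq β h
  | smul a p _ hp =>
    intro β hβ
    exact hp β (support_smul hβ)

theorem std_indep (hr : 0 < r) {p : MvPolynomial (Fin r ↪o Fin m) ℂ}
    (hp : ∀ β ∈ p.support, Std β) (h0 : PhiL r m p = 0) : p = 0 := by
  classical
  by_contra hne
  obtain ⟨β₀, hβ₀, hmax⟩ := Finset.exists_max_image p.support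
    (fun β => (ord r m).toSyn (ee r m β)) (Finset.nonempty_of_ne_empty (by simpa using hne))
  have h1 : coeff (ee r m β₀) (PhiL r m p) = coeff β₀ p := by
    conv_lhs => rw [← support_sum_monomial_coeff p]
    rw [map_sum, coeff_sum, Finset.sum_eq_single β₀]
    · have : monomial β₀ (coeff β₀ p) = coeff β₀ p • monomial β₀ (1 : ℂ) := by
        rw [smul_monomial, smul_eq_mul, mul_one]
      rw [this, map_smul, coeff_smul]
      have h2 := LMon_monomial β₀
      have h3 := h2.1.coeff_degree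
      rw [h2.2] at h3
      rw [h3, smul_eq_mul, mul_one]
    · intro β hβ hne
      have : monomial β (coeff β p) = coeff β p • monomial β (1 : ℂ) := by
        rw [smul_monomial, smul_eq_mul, mul_one]
      rw [this, map_smul, coeff_smul]
      have h2 := LMon_monomial β
      rw [MonomialOrder.coeff_eq_zero_of_lt (m := ord r m), smul_zero]
      rw [h2.2]
      refine lt_of_le_of_ne (hmax β hβ) ?_
      intro h
      exact hne (ee_inj hr _ β β₀ rfl (hp β hβ) (hp β₀ hβ₀) ((ord r m).toSyn.injective h))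
    · intro h; exact absurd hβ₀ h
  rw [h0, coeff_zero] at h1
  exact (mem_support_iff.1 hβ₀) h1.symm

/-- **Second fundamental theorem**: the relations among the maximal minors of the generic `r × m`
matrix are generated by the Pluecker relations. -/
theorem ker_Phi (hr : 0 < r) : RingHom.ker (Phi r m) = Ideal.span (rels r m) := by
  apply le_antisymm _ span_le_ker
  intro Q hQ
  rw [RingHom.mem_ker] at hQ
  obtain ⟨a, ha, b, hb, rfl⟩ := Submodule.mem_sup.1 (mem_MM Q)
  have ha' : a ∈ Ideal.span (rels r m) := ha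
  have hb0 : b = 0 := by
    apply std_indep hr (support_std hb)
    have h1 : Phi r m a = 0 := span_le_ker ha'
    rw [map_add, h1, zero_add] at hQ
    unfold PhiL
    rw [AlgHom.comp_apply, hQ, map_zero]
  rw [hb0, add_zero]
  exact ha'

end Pool.Agent.Helper49.Plu
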